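import Pool.Agent.R734.Sp3Proof

/-!
# `Sp(3) / diag(z, z, q)` carries no invariant reversible Finsler metric of positive flag curvature
-/

set_option autoImplicit false

open scoped Matrix.Norms.Frobenius

namespace Pool.Agent.Results.MP_f09395_gt.SpThreeExcluded

open Pool.Agent.R734

/-- There is no `Ad(H)`-invariant reversible Minkowski norm on `m`, that is, no `Sp(3)`-invariant
reversible Finsler metric on `Sp(3) / H`, `H = diag(z, z, q)`, all of whose flag curvatures are
positive. -/
theorem result :
    ¬ ∃ F : Sp3.m → ℝ, Finsler.IsMinkowski F ∧ Finsler.IsReversible F ∧ Sp3.IsInvariant F ∧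
      Finsler.IsPositivelyCurved F Sp3.br Sp3.cu := by
  rintro ⟨F, hF, hrev, hinv, hpos⟩
  exact Sp3.no_positive F hF hrev hinv hpos

end Pool.Agent.Results.MP_f09395_gt.SpThreeExcluded
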